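import Pool.Agent.W483.FB.Stm

/-!
# Joint eigenbasis of the first generator and of the operators `E (a j) F (b j)`
-/

set_option autoImplicit false

open Finset Matrix

namespace Pool.Agent.W305.FB

open Pool.Agent.W483.FB

namespace Basis2

section ring

variable {R : Type*} [Ring R]

lemma sq_one {E F : R} (hE : E * E = 1) (hF : F * F = -1) (h : E * F + F * E = 0) :
    E * F * (E * F) = 1 := by
  linear_combination (norm := noncomm_ring) E * h * F - hE * (F * F) - hF

lemma comm1 {x E F : R} (h1 : x * E + E * x = 0) (h2 : x * F + F * x = 0) :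
    x * (E * F) = E * F * x := by
  linear_combination (norm := noncomm_ring) h1 * F - E * h2

lemma comm2 {x y E F : R} (h1 : x * E + E * x = 0) (h2 : x * F + F * x = 0)
    (h3 : y * E + E * y = 0) (h4 : y * F + F * y = 0) :
    x * y * (E * F) = E * F * (x * y) := by
  rw [mul_assoc x y, comm1 h3 h4, ← mul_assoc, comm1 h1 h2, mul_assoc]

lemma anti {F0 E F : R} (h1 : F0 * E + E * F0 = 0) (h2 : F0 * F + F * F0 = 0)
    (h3 : E * F + F * E = 0) : F0 * E * (E * F) = -(E * F * (F0 * E)) := by
  linear_combination (norm := noncomm_ring) E * h2 * E - h1 * (F * E) + F0 * E * h3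

lemma neg_of {x y : R} (h : x * y + y * x = 0) : x * y = -(y * x) := by
  linear_combination (norm := noncomm_ring) h

end ring

end Basis2

open Basis2 in
theorem t_basis2 (hj : S_joint) (ha : S_alg) : S_basis2 := by
  intro n c a b b0 hOa ha0 hOb hb0 hb0b
  have he0 : c.e 0 = c.E (Pi.single 0 1) := by
    unfold Cliff.E
    rw [Finset.sum_eq_single 0]
    · simp
    · intro i _ hi
      rw [Pi.single_eq_of_ne hi, zero_smul]
    · intro h
      exact absurd (Finset.mem_univ _) h
  have A := ha (n + 1) c
  -- relations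
  have rEE : ∀ i j, i ≠ j → c.E (a i) * c.E (a j) + c.E (a j) * c.E (a i) = 0 := by
    intro i j hij
    rw [(A (a i) (a j)).1, hOa i j, if_neg hij]
    simp
  have rE : ∀ i, c.E (a i) * c.E (a i) = 1 := by
    intro i
    have h := (A (a i) (a i)).1
    rw [hOa i i, if_pos rfl] at h
    have h2 : (2 : ℝ) • (c.E (a i) * c.E (a i)) = (2 : ℝ) • (1 : Mat (n + 1)) := by
      rw [two_smul, h, mul_one]
    exact smul_right_injective _ (two_ne_zero (α := ℝ)) h2
  have rFF : ∀ v w : Fin (n + 1) → ℝ, ∑ i, v i * w i = 0 →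
      c.F v * c.F w + c.F w * c.F v = 0 := by
    intro v w h
    rw [(A v w).2.1, h]
    simp
  have rF : ∀ v : Fin (n + 1) → ℝ, ∑ i, v i * v i = 1 → c.F v * c.F v = -1 := by
    intro v hv
    have h := (A v v).2.1
    rw [hv] at h
    have h2 : (2 : ℝ) • (c.F v * c.F v) = (2 : ℝ) • (-1 : Mat (n + 1)) := by
      rw [two_smul, h, mul_one, neg_smul, smul_neg]
    exact smul_right_injective _ (two_ne_zero (α := ℝ)) h2
  have rEF : ∀ v w : Fin (n + 1) → ℝ, c.E v * c.F w + c.F w * c.E v = 0 := fun v w =>
    (A v w).2.2.1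
  have rFE : ∀ v w : Fin (n + 1) → ℝ, c.F w * c.E v + c.E v * c.F w = 0 := fun v w =>
    (add_comm _ _).trans (rEF v w)
  have r0E : ∀ j, c.e 0 * c.E (a j) + c.E (a j) * c.e 0 = 0 := by
    intro j
    rw [he0, (A _ (a j)).1]
    have : ∑ i, (Pi.single 0 1 : Fin (n + 1) → ℝ) i * a j i = a j 0 := by
      rw [Finset.sum_eq_single 0]
      · simp
      · intro i _ hi
        rw [Pi.single_eq_of_ne hi, zero_mul]
      · intro h
        exact absurd (Finset.mem_univ _) h
    rw [this, ha0 j]
    simp
  have r0F : ∀ w, c.e 0 * c.F w + c.F w * c.e 0 = 0 := by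
    intro w
    rw [he0]
    exact rEF _ w
  have rF0 : ∀ w, c.F w * c.e 0 + c.e 0 * c.F w = 0 := by
    intro w
    exact (add_comm _ _).trans (r0F w)
  have tE : ∀ v, (c.E v)ᵀ = c.E v := fun v => (A v v).2.2.2.1
  have tF : ∀ v, (c.F v)ᵀ = -c.F v := fun v => (A v v).2.2.2.2
  have hbj : ∀ j, ∑ k, b j k * b j k = 1 := fun j => by rw [hOb j j, if_pos rfl]
  have hb0b' : ∀ j, c.F b0 * c.F (b j) + c.F (b j) * c.F b0 = 0 := fun j => rFF _ _ (hb0b j)
  have hbb : ∀ i j, i ≠ j → c.F (b i) * c.F (b j) + c.F (b j) * c.F (b i) = 0 :=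
    fun i j hij => rFF _ _ (by rw [hOb i j, if_neg hij])
  obtain ⟨u, hu, hC⟩ := hj (n + 1)
    (Fin.cons (c.e 0) (fun j => c.E (a j) * c.F (b j)))
    (Fin.cons (c.F b0) (fun j => c.F b0 * c.E (a j)))
    (by
      intro j
      refine Fin.cases ?_ (fun j => ?_) j
      · simp only [Fin.cons_zero]
        exact c.e_tr 0
      · simp only [Fin.cons_succ]
        rw [Matrix.transpose_mul, tE, tF, neg_mul]
        exact (neg_of (rEF _ _)).symm)
    (by
      intro j
      refine Fin.cases ?_ (fun j => ?_) j
      · simp only [Fin.cons_zero]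
        exact c.e_sq 0
      · simp only [Fin.cons_succ]
        exact sq_one (rE j) (rF _ (hbj j)) (rEF _ _))
    (by
      intro i j
      refine Fin.cases ?_ (fun i => ?_) i
      · refine Fin.cases ?_ (fun j => ?_) j
        · rfl
        · simp only [Fin.cons_zero, Fin.cons_succ]
          exact comm1 (r0E j) (r0F _)
      · refine Fin.cases ?_ (fun j => ?_) j
        · simp only [Fin.cons_zero, Fin.cons_succ]
          exact (comm1 (r0E i) (r0F _)).symm
        · simp only [Fin.cons_succ]
          by_cases hij : i = j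
          · rw [hij]
          · exact comm2 (rEE i j hij) (rEF _ _) (rFE _ _) (hbb i j hij))
    (by
      intro j
      refine Fin.cases ?_ (fun j => ?_) j
      · simp only [Fin.cons_zero]
        rw [tF, neg_mul, rF _ hb0, neg_neg]
      · simp only [Fin.cons_succ]
        rw [Matrix.transpose_mul, tE, tF, mul_neg, neg_mul, ← mul_assoc,
          mul_assoc (c.E (a j)) (c.F b0), rF _ hb0, mul_neg, mul_one, neg_mul, neg_neg, rE])
    (by
      intro j
      refine Fin.cases ?_ (fun j => ?_) j
      · simp only [Fin.cons_zero]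
        exact neg_of (rF0 _)
      · simp only [Fin.cons_succ]
        exact anti (rFE _ _) (hb0b' j) (rEF _ _))
    (by
      intro j k
      refine Fin.cases ?_ (fun j => ?_) j
      · refine Fin.cases ?_ (fun k => ?_) k
        · intro h
          exact absurd rfl h
        · intro _
          simp only [Fin.cons_zero, Fin.cons_succ]
          exact comm1 (rFE _ _) (hb0b' k)
      · refine Fin.cases ?_ (fun k => ?_) k
        · intro _
          simp only [Fin.cons_zero, Fin.cons_succ]
          exact (comm1 (r0F _) (r0E j)).symm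
        · intro h
          have hjk : j ≠ k := fun e => h (by rw [e])
          simp only [Fin.cons_succ]
          exact comm2 (rFE _ _) (hb0b' k) (rEE j k hjk) (rEF _ _))
  refine ⟨u, hu, fun s => ?_, fun s j => ?_⟩
  · have := hC s 0
    simpa only [Fin.cons_zero] using this
  · have := hC s j.succ
    simpa only [Fin.cons_succ] using this

end Pool.Agent.W305.FB
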